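import Pool.Agent.MP_77f003_co.H51.HBasic

/-!
The end fixed by the stabiliser of the union of a chain of cuts.
-/

namespace Pool.Agent.MP_77f003_co.H49

open SimpleGraph Filter Set

variable {V : Type} {G : SimpleGraph V} [Fact G.Connected]

namespace Om

omit [Fact G.Connected] in
theorem stay {S C : Set V} {x y : V} (l : Lk G S x y) (hx : x ∈ C)
    (h : ∀ p ∈ cb G 1 C, p.2 ∉ S) : y ∈ C := by
  by_contra hy
  obtain ⟨p, p1, p2, -⟩ := l.cross hx hy
  exact h p p1 p2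

/-- Links that go to infinity concatenate to a ray. -/
theorem ray {x : ℕ → V} {S : ℕ → Set V} (hS : Antitone S) (l : ∀ k, Lk G (S k) (x k) (x (k + 1)))
    (h : ∀ y t, ∀ᶠ k in atTop, ∀ z ∈ S k, t ≤ G.dist y z) :
    ∃ w, LR G w ∧ (∀ k, ∀ᶠ n in atTop, Lk G (S k) (x k) (w n)) ∧
      ∀ C, (cb G 1 C).Finite → (∀ᶠ k in atTop, x k ∈ C) → ∀ᶠ n in atTop, w n ∈ C := by
  classical
  choose p hp using id l
  let f : ℕ × ℕ → ℕ × ℕ := fun s => if s.2 < (p s.1).length then (s.1, s.2 + 1) else (s.1 + 1, 0)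
  let s : ℕ → ℕ × ℕ := fun n => f^[n] (0, 0)
  have e : ∀ n, s (n + 1) = f (s n) := fun n => Function.iterate_succ_apply' _ _ _
  have m : Monotone fun n => (s n).1 := monotone_nat_of_le_succ fun n => by
    rw [e]
    simp only [f]
    split_ifs <;> simp
  have u : ∀ k, ∃ n, s n = (k, 0) := fun k => by
    induction k with
    | zero => exact ⟨0, rfl⟩
    | succ k ih =>
      obtain ⟨n, hn⟩ := ih
      have : ∀ i ≤ (p k).length, s (n + i) = (k, i) := fun i hi => by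
        induction i with
        | zero => exact hn
        | succ i ih => rw [← add_assoc, e, ih (by omega)]; exact if_pos hi
      exact ⟨n + (p k).length + 1, by rw [e, this _ le_rfl]; exact if_neg (lt_irrefl _)⟩
  have key : ∀ k, ∀ᶠ n in atTop, Lk G (S k) (x k) ((p (s n).1).getVert (s n).2) := fun k => by
    obtain ⟨n, hn⟩ := u k
    filter_upwards [eventually_ge_atTop n] with i hi
    obtain ⟨j, hj⟩ := Nat.exists_eq_add_of_le (show k ≤ (s i).1 by simpa [hn] using m hi)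
    refine (hj ▸ Lk.seq (g := fun a => x (k + a)) (n := j) (l k).left fun a _ =>
      (l (k + a)).mono (hS (Nat.le_add_right _ _))).trans (Lk.mono ?_ (hS (hj ▸ Nat.le_add_right k j)))
    exact ⟨(p _).takeUntil _ (Walk.getVert_mem_support _ _), fun z hz =>
      hp _ z (Walk.support_takeUntil_subset_support _ _ hz)⟩
  refine ⟨fun n => (p (s n).1).getVert (s n).2, ⟨fun n => ?_, fun y t => ?_⟩, key, fun C c1 c2 => ?_⟩
  · beta_reduce
    by_cases c : (s n).2 < (p (s n).1).length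
    · rw [show s (n + 1) = _ from (e n).trans (if_pos c)]
      exact (dist_adj ((p _).adj_getVert_succ c)).le
    · rw [show s (n + 1) = _ from (e n).trans (if_neg c)]
      simp [Walk.getVert_of_length_le _ (not_lt.1 c)]
  · obtain ⟨k, hk⟩ := (h y t).exists
    exact (key k).mono fun n l => hk _ l.right
  · obtain ⟨k, k1, k2⟩ := (c2.and (c1.eventually_all.2 fun q _ => h q.2 1)).exists
    exact (key k).mono fun n l => stay l k1 fun q hq c => by simpa using k2 q hq _ c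

theorem not_se {a b : ℕ → V} {C : Set V} (ha : LR G a) (hb : LR G b) (h : Sp G a b C) :
    ¬ SE G a b := fun k => by
  obtain ⟨t, ht⟩ := (far_out (G := G) (h.1.image Prod.snd) (a 0) 1).exists
  obtain ⟨n, ⟨n1, n2⟩, n3⟩ := ((h.2.1.and h.2.2).and (k.ev ha hb (a 0) t)).exists
  exact n2 (stay (n3 n n le_rfl le_rfl) n1 fun p hp c => by simpa using ht _ ⟨p, hp, rfl⟩ _ c)

omit [Fact G.Connected] in
/-- Few edges of a smallest cut start in a set that the inner sequence leaves. -/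
theorem few {α β : ℕ → V} {A C : Set V} (h : Sp G α β A)
    (hm : ∀ B, Sp G α β B → (cb G 1 A).ncard ≤ (cb G 1 B).ncard) (hC : (cb G 1 C).Finite)
    (k : ∀ᶠ n in atTop, α n ∉ C) : (cb G 1 A ∩ {e | e.1 ∈ C}).ncard ≤ (cb G 1 C).ncard := by
  have e0 : (cb G 1 Cᶜ).Finite := cb_compl (G := G) 1 C ▸ hC.image _
  have e1 : cb G 1 (A \ C) ⊆ cb G 1 A \ {e | e.1 ∈ C} ∪ cb G 1 Cᶜ := fun p ⟨p1, p2, p3⟩ => by
    by_cases c : p.2 ∈ A
    · exact Or.inr ⟨p1.2, fun c' => p2 ⟨c, c'⟩, p3⟩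
    · exact Or.inl ⟨⟨p1.1, c, p3⟩, p1.2⟩
  have e2 := (h.1.subset sdiff_subset).union e0 |>.subset e1
  have e3 := hm _ ⟨e2, h.2.1.and k, h.2.2.mono fun _ a b => a b.1⟩
  have e4 := (ncard_le_ncard e1 ((h.1.subset sdiff_subset).union e0)).trans (ncard_union_le _ _)
  have e5 := ncard_inter_add_ncard_sdiff_eq_ncard (cb G 1 A) {e | e.1 ∈ C} h.1
  rw [ncard_cb_compl] at e4
  omega

end Om

open Om in
theorem omSpec (hO : OmegaSpec) : OmSpec := by
  intro V G _ _ ht N u v A h hP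
  classical
  have ho : (MulAction.orbit (stab (⋃ j, A j) : Subgroup (G ≃g G)) u).Infinite :=
    fun e => hP (finOrb_of e)
  have : ∀ k, ∃ g ∈ (stab (⋃ j, A j) : Subgroup (G ≃g G)), 2 * k + 2 ≤ G.dist u (g u) := fun k => by
    obtain ⟨_, ⟨φ, rfl⟩, e⟩ := ho.exists_notMem_finite (finite_ball (G := G) u (2 * k + 2))
    exact ⟨φ.1, φ.2, (not_le.1 e).le⟩
  choose g g1 g2 using this
  obtain ⟨ω, w1, w2, w3⟩ := ray (G := G) (x := fun k => g k u) (S := fun k => {z | k < G.dist u z})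
    (fun a b e z hz => e.trans_lt hz)
    (fun k => hO G _ u k h.ell _ (g1 k) _ (g1 _) (g2 k) (le_trans (by omega) (g2 (k + 1))))
    fun y t => (eventually_ge_atTop (t + G.dist u y)).mono fun k hk z hz => by
      have := tri (G := G) u y z
      have : k < G.dist u z := hz
      omega
  have far : ∀ φ ∈ (stab (⋃ j, A j) : Subgroup (G ≃g G)), ∀ r, 2 * r + 2 ≤ G.dist u (φ u) →
      ∀ᶠ n in atTop, Lk G {z | r < G.dist u z} (φ u) (ω n) := fun φ hφ r hr =>
    (w2 r).mono fun n l => (hO G _ u r h.ell _ hφ _ (g1 r) hr (g2 r)).trans l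
  refine ⟨ω, w1, fun φ hφ => ⟨fun x t => ?_, far φ hφ⟩, fun ρ => ?_⟩
  · obtain ⟨n, n1, n2⟩ := ((w2 (t + G.dist u x + G.dist u (φ u))).and (far _ (mul_mem hφ
      (g1 (t + G.dist u x + G.dist u (φ u)))) (t + G.dist u x) (by
        have e1 := g2 (t + G.dist u x + G.dist u (φ u))
        have e2 := tri (G := G) (φ u) u (φ (g (t + G.dist u x + G.dist u (φ u)) u))
        rw [dist_iso, dcomm (φ u)] at e2
        change _ ≤ G.dist u (φ (g _ u))
        omega))).exists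
    refine ⟨n, n, ((n1.map φ).symm.mono ?_).trans (n2.mono fun z hz => ?_)⟩
    · rintro _ ⟨z, hz, rfl⟩
      have e1 : _ < G.dist u z := hz
      have e2 := tri (G := G) (φ u) u (φ z)
      have e3 := tri (G := G) u x (φ z)
      rw [dist_iso, dcomm (φ u)] at e2
      change t ≤ _
      omega
    · have e1 : _ < G.dist u z := hz
      have e3 := tri (G := G) u x z
      change t ≤ _
      omega
  obtain ⟨T, t1, t2⟩ := ho.exists_subset_card_eq
    (2 * ((G.degree u + 1) ^ (ρ + 1) * (G.degree u + 1) ^ (ρ + 1)) + 1)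
  have sub : ∀ j, A j ⊆ ⋃ j, A j := subset_iUnion A
  obtain ⟨j, hj⟩ := (T.eventually_all.2 fun x hx => show ∀ᶠ j in atTop,
    x ∈ Prod.fst '' (cb G 1 (A j) ∩ {e | e.2 ∉ ⋃ j, A j}) by
      obtain ⟨φ, rfl⟩ := t1 hx
      obtain ⟨i, hi⟩ := mem_iUnion.1 ((φ.2 u).2 (sub 0 (h.mem 0).2.1))
      have e : φ.1 v ∉ ⋃ j, A j := fun e => h.notMem ((φ.2 v).1 e)
      exact (eventually_ge_atTop i).mono fun j hj => ⟨(φ.1 u, φ.1 v), ⟨⟨h.mono.monotone hj hi,
        fun c => e (sub j c), (dist_adj (φ.1.map_adj_iff.2 h.adj)).le⟩, e⟩, rfl⟩).exists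
  have fin : ∀ i, (cb G 1 (A i)).Finite := fun i => h.fin (h.mem i).1
  have big := (ncard_le_ncard (show (T : Set V) ⊆ _ from hj) (((fin j).inter_of_left _).image _)).trans
    (ncard_image_le ((fin j).inter_of_left _))
  rw [ncard_coe_finset, t2] at big
  obtain ⟨a, b, ⟨⟨s, a1⟩, a2⟩, -, a3, a4⟩ := (h.eff _ (h.mem j).1).1
  obtain ⟨α, l1, -, l3⟩ := ray (G := G) (x := a) (S := fun k => {z | ∃ m, k ≤ m ∧ G.dist (a m) z ≤ s})
    (fun _ _ e z ⟨m, m1, m2⟩ => ⟨m, e.trans m1, m2⟩)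
    (fun k => Lk.ball fun z hz => ⟨k, le_rfl, hz.trans (a1 k)⟩) fun y t => by
      obtain ⟨k, hk⟩ := eventually_atTop.1 (a2 y (t + s))
      filter_upwards [eventually_ge_atTop k] with i hi z ⟨m, m1, m2⟩
      have := hk m (hi.trans m1)
      have := tri (G := G) y z (a m)
      rw [dcomm] at m2
      omega
  refine ⟨α, l1, not_se l1 w1 ⟨fin j, l3 _ (fin j) a3.2.1, w3 (A j)ᶜ
    (cb_compl (G := G) 1 (A j) ▸ (fin j).image _) ?_⟩, fun z k => ?_⟩
  · obtain ⟨d, hd⟩ := ((h.finOrb j u).image (G.dist u)).bddAbove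
    filter_upwards [eventually_ge_atTop d] with k hk c
    rcases h.disj j _ (g1 k) with e | e
    · have := hd ⟨_, ⟨⟨_, e⟩, rfl⟩, rfl⟩
      have := g2 k
      change G.dist u (g k u) ≤ d at *
      omega
    · exact disjoint_left.1 e ⟨u, (h.mem j).2.1, rfl⟩ c
  by_contra hc
  push Not at hc
  obtain ⟨B, hB⟩ : ∃ B, B = {y | ∃ m, k ≤ m ∧ Lk G {y | ρ < G.dist z y} (α m) y} := ⟨_, rfl⟩
  have b0 : cb G 1 B ⊆ ↑(ball G z (ρ + 1) ×ˢ ball G z (ρ + 1)) := fun p ⟨p1, p2, p3⟩ => by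
    subst hB
    obtain ⟨m, m1, m2⟩ := p1
    have e1 : G.dist z p.2 ≤ ρ := not_lt.1 fun c => p2 ⟨m, m1, m2.trans (Lk.near p3 m2.right c)⟩
    have e2 := tri (G := G) z p.2 p.1
    rw [dcomm] at p3
    exact Finset.mem_product.2 ⟨mem_ball.2 (by omega), mem_ball.2 (by omega)⟩
  have b1 : (cb G 1 B).Finite := (Finset.finite_toSet _).subset b0
  have b1' : (cb G 1 Bᶜ).Finite := cb_compl (G := G) 1 B ▸ b1.image _
  have b2 := ncard_le_ncard b0 (Finset.finite_toSet _)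
  have b3 := card_ball_le (fun x => (degree_eq ht x u).le) z (ρ + 1)
  rw [ncard_coe_finset, Finset.card_product] at b2
  replace b2 := b2.trans (Nat.mul_le_mul b3 b3)
  have b4 : ∀ᶠ n in atTop, α n ∈ B := ((l1.2 z (ρ + 1)).and (eventually_ge_atTop k)).mono
    fun n hn => hB ▸ ⟨n, hn.2, Lk.refl hn.1⟩
  have b5 : ∀ᶠ n in atTop, ω n ∉ B := (eventually_ge_atTop k).mono fun n hn c => by
    subst hB
    exact let ⟨m, m1, m2⟩ := c; hc m n m1 hn m2
  have b6 := few a3 a4 b1' (((show QR G a from ⟨⟨s, a1⟩, a2⟩).dich b1).elim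
    (fun e => e.mono fun _ e c => c e) fun e =>
      let ⟨_, e1, e2⟩ := ((l3 _ b1' e).and b4).exists; absurd e2 e1)
  rw [ncard_cb_compl] at b6
  obtain ⟨r, hr⟩ := (b1.image fun p => G.dist u p.2).bddAbove
  have hr' : ∀ p ∈ cb G 1 B, p.2 ∉ {z | r < G.dist u z} := fun p hp c =>
    not_le.2 c (hr ⟨p, hp, rfl⟩)
  have c1 : ∀ φ ∈ (stab (⋃ j, A j) : Subgroup (G ≃g G)), 2 * r + 2 ≤ G.dist u (φ u) →
      ∀ q, G.dist q (φ u) ≤ G.dist q u → q ∉ B := fun φ hφ e q hq c => by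
    obtain ⟨n, n1, n2⟩ := ((far φ hφ r e).and b5).exists
    refine n2 (stay ((Lk.geo fun y hy => ?_).trans n1) c hr')
    have e1 := tri (G := G) q y u
    have e2 := tri (G := G) u y (φ u)
    rw [dcomm y u] at e1
    change r < _
    omega
  have c2 : ∀ q ∈ B, g r q ∉ B := fun q hq => by
    have e : G.dist u ((g r)⁻¹ u) = G.dist u (g r u) := by
      rw [← dist_iso (g r), dcomm]
      simp
    refine c1 _ (g1 r) (g2 r) _ (not_lt.1 fun c => c1 _ (inv_mem (g1 r)) (e ▸ g2 r) q ?_ hq)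
    rw [← dist_iso (g r), ← dist_iso (g r) q u]
    simpa using c.le
  obtain ⟨i, i1, i2⟩ := ((h.ev (g1 r)).and (eventually_ge_atTop j)).exists
  obtain ⟨a', b', q1, -, q3, q4⟩ := (h.eff _ (h.mem i).1).1
  have c3 : (cb G 1 (A i) ∩ {e | e.1 ∈ B}).ncard ≤ (cb G 1 B).ncard := by
    refine (q1.dich b1).elim (fun e => ?_) (few q3 q4 b1)
    have e1 := few q3 q4 ((cb_pre' (g r) 1 B).2 b1) (e.mono fun n e => c2 _ e)
    have e2 : Function.Bijective (Prod.map (g r) (g r)) := (g r).bijective.prodMap (g r).bijective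
    have e3 : cb G 1 (A i) ∩ {e | e.1 ∈ g r ⁻¹' B} =
        Prod.map (g r) (g r) ⁻¹' (cb G 1 (A i) ∩ {e | e.1 ∈ B}) := by
      rw [preimage_inter, ← cb_pre, show g r ⁻¹' A i = A i from Set.ext i1]
      rfl
    rwa [(cb_pre' _ _ _).1, e3, ncard_preimage_of_injective_subset_range e2.1
      (by rw [e2.2.range_eq]; simp)] at e1
  have c4 := (ncard_le_ncard (show cb G 1 (A j) ∩ {e | e.2 ∉ ⋃ j, A j} ⊆
    cb G 1 (A j) ∩ {e | e.1 ∈ Bᶜ} ∪ cb G 1 (A i) ∩ {e | e.1 ∈ B} from fun p ⟨p1, p2⟩ =>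
      (em (p.1 ∈ B)).symm.imp (fun c => ⟨p1, c⟩) fun c =>
        ⟨⟨h.mono.monotone i2 p1.1, fun e => p2 (sub i e), p1.2.2⟩, c⟩)
    (((fin j).inter_of_left _).union ((fin i).inter_of_left _))).trans (ncard_union_le _ _)
  omega

end Pool.Agent.MP_77f003_co.H49
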